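import Pool.Agent.Helper82.IW.Goals

/-!
MP_f7b570_an, packet SPB: stability of smooth doubly periodic functions.
-/

open Complex MeasureTheory Set Filter Topology
open scoped ContDiff ComplexConjugate

namespace Pool.Agent.Helper49.IW

open Pool.Agent.Helper82.IW

variable {E : Type*} [NormedAddCommGroup E] [NormedSpace ℝ E]

theorem per_fderiv (f : ℂ → E) (hf : Per f) (v : ℂ) : Per (fun z => fderiv ℝ f z v) := by
  intro z
  constructor
  · have h : (fun w => f (w + 1)) = f := funext fun w => (hf w).1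
    show fderiv ℝ f (z + 1) v = fderiv ℝ f z v
    rw [← fderiv_comp_add_right, h]
  · have h : (fun w => f (w + I)) = f := funext fun w => (hf w).2
    show fderiv ℝ f (z + I) v = fderiv ℝ f z v
    rw [← fderiv_comp_add_right, h]

theorem sp_fderiv (f : ℂ → E) (hf : SP f) (v : ℂ) : SP (fun z => fderiv ℝ f z v) where
  smooth := (hf.smooth.fderiv_right (m := ∞) (by norm_num)).clm_apply contDiff_const
  per := per_fderiv f hf.per v

theorem sp_dx (f : ℂ → E) (hf : SP f) : SP (dx f) := sp_fderiv f hf 1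

theorem sp_dy (f : ℂ → E) (hf : SP f) : SP (dy f) := sp_fderiv f hf I

theorem sp_conj (f : ℂ → ℂ) (hf : SP f) : SP (fun z => conj (f z)) where
  smooth := (conjCLE.contDiff (n := ∞)).comp hf.smooth
  per := fun z => ⟨by simp only [(hf.per z).1], by simp only [(hf.per z).2]⟩

theorem fderiv_conj (f : ℂ → ℂ) (hf : ContDiff ℝ ∞ f) (z v : ℂ) :
    fderiv ℝ (fun w => conj (f w)) z v = conj (fderiv ℝ f z v) := by
  have h1 : HasFDerivAt f (fderiv ℝ f z) z :=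
    (hf.differentiable (by norm_num) z).hasFDerivAt
  have h2 : HasFDerivAt (fun w => conjCLE (f w))
      ((conjCLE : ℂ →L[ℝ] ℂ).comp (fderiv ℝ f z)) z :=
    (conjCLE : ℂ →L[ℝ] ℂ).hasFDerivAt.comp z h1
  have h3 : fderiv ℝ (fun w => conj (f w)) z = (conjCLE : ℂ →L[ℝ] ℂ).comp (fderiv ℝ f z) :=
    h2.fderiv
  rw [h3]
  rfl

theorem fderiv_fderiv (f : ℂ → E) (hf : ContDiff ℝ ∞ f) (z v w : ℂ) :
    fderiv ℝ (fun u => fderiv ℝ f u v) z w = fderiv ℝ (fderiv ℝ f) z w v := by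
  have h1 : ContDiff ℝ ∞ (fderiv ℝ f) := hf.fderiv_right (m := ∞) (by norm_num)
  have h2 : HasFDerivAt (fderiv ℝ f) (fderiv ℝ (fderiv ℝ f) z) z :=
    (h1.differentiable (by norm_num) z).hasFDerivAt
  have h3 := h2.clm_apply (hasFDerivAt_const v z)
  rw [h3.fderiv]
  simp

theorem dxdy (f : ℂ → E) (hf : ContDiff ℝ ∞ f) (z : ℂ) : dx (dy f) z = dy (dx f) z := by
  have h1 : IsSymmSndFDerivAt ℝ f z := by
    apply ContDiffAt.isSymmSndFDerivAt (n := ∞)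
    · exact hf.contDiffAt
    · simp only [minSmoothness_of_isRCLikeNormedField]
      exact WithTop.coe_le_coe.mpr le_top
  have h2 : dx (dy f) z = fderiv ℝ (fderiv ℝ f) z 1 I := fderiv_fderiv f hf z I 1
  have h3 : dy (dx f) z = fderiv ℝ (fderiv ℝ f) z I 1 := fderiv_fderiv f hf z 1 I
  rw [h2, h3]
  exact h1 1 I

theorem sp_add (f g : ℂ → E) (hf : SP f) (hg : SP g) : SP (fun z => f z + g z) where
  smooth := hf.smooth.add hg.smooth
  per := fun z => ⟨by simp only [(hf.per z).1, (hg.per z).1], by simp only [(hf.per z).2, (hg.per z).2]⟩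

theorem sp_sub (f g : ℂ → E) (hf : SP f) (hg : SP g) : SP (fun z => f z - g z) where
  smooth := hf.smooth.sub hg.smooth
  per := fun z => ⟨by simp only [(hf.per z).1, (hg.per z).1], by simp only [(hf.per z).2, (hg.per z).2]⟩

theorem sp_mulC (f g : ℂ → ℂ) (hf : SP f) (hg : SP g) : SP (fun z => f z * g z) where
  smooth := hf.smooth.mul hg.smooth
  per := fun z => ⟨by simp only [(hf.per z).1, (hg.per z).1], by simp only [(hf.per z).2, (hg.per z).2]⟩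

theorem sp_mulR (f g : ℂ → ℝ) (hf : SP f) (hg : SP g) : SP (fun z => f z * g z) where
  smooth := hf.smooth.mul hg.smooth
  per := fun z => ⟨by simp only [(hf.per z).1, (hg.per z).1], by simp only [(hf.per z).2, (hg.per z).2]⟩

theorem sp_const (c : E) : SP (fun _ : ℂ => c) where
  smooth := contDiff_const
  per := fun _ => ⟨rfl, rfl⟩

theorem sp_ofReal (f : ℂ → ℝ) (hf : SP f) : SP (fun z => ((f z : ℝ) : ℂ)) where
  smooth := (ofRealCLM.contDiff (n := ∞)).comp hf.smooth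
  per := fun z => ⟨by simp only [(hf.per z).1], by simp only [(hf.per z).2]⟩

theorem Rpos (ε : ℝ) (hε : 0 < ε) (H : ℂ → ℂ) (z : ℂ) : 0 < ‖H z‖ ^ 2 + ε ^ 2 := by positivity

theorem Rr_pos (ε : ℝ) (hε : 0 < ε) (H : ℂ → ℂ) (z : ℂ) : 0 < Rr ε H z :=
  Real.sqrt_pos.mpr (Rpos ε hε H z)

theorem sp_Rr (ε : ℝ) (hε : 0 < ε) (H : ℂ → ℂ) (hH : SP H) : SP (Rr ε H) where
  smooth := by
    have h1 : ContDiff ℝ ∞ (fun z => ‖H z‖ ^ 2 + ε ^ 2) :=
      (hH.smooth.norm_sq ℝ).add contDiff_const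
    exact h1.sqrt (fun z => (Rpos ε hε H z).ne')
  per := fun z => by
    unfold Rr
    exact ⟨by rw [(hH.per z).1], by rw [(hH.per z).2]⟩

theorem fderiv_Rr (ε : ℝ) (hε : 0 < ε) (H : ℂ → ℂ) (hH : ContDiff ℝ ∞ H) (z v : ℂ) :
    fderiv ℝ (Rr ε H) z v = (conj (H z) * fderiv ℝ H z v).re / Rr ε H z := by
  have h1 : HasFDerivAt H (fderiv ℝ H z) z :=
    (hH.differentiable (by norm_num) z).hasFDerivAt
  have h2 := (h1.norm_sq.add_const (ε ^ 2)).sqrt (Rpos ε hε H z).ne'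
  have h3 : fderiv ℝ (Rr ε H) z = _ := h2.fderiv
  rw [h3]
  have hR : Real.sqrt (‖H z‖ ^ 2 + ε ^ 2) = Rr ε H z := rfl
  simp only [_root_.smul_apply, ContinuousLinearMap.comp_apply, innerSL_apply_apply,
    Complex.inner, smul_eq_mul, nsmul_eq_mul, hR]
  have h4 := Rr_pos ε hε H z
  field_simp
  simp

theorem ta_deriv (ν ρ r : ℝ) (hρ : 0 < ρ) (hr : 0 < r) :
    HasDerivAt (fun r => ta ν ρ r) (-(2 * ν / r) * (ta ν ρ r * (1 - ta ν ρ r))) r := by
  have hq : 0 < r / ρ := div_pos hr hρ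
  have h1 : HasDerivAt (fun s : ℝ => s / ρ) (1 / ρ) r := (hasDerivAt_id r).div_const ρ
  have h2 := h1.rpow_const (p := 2 * ν) (Or.inl hq.ne')
  have hpos : 0 < 1 + (r / ρ) ^ (2 * ν) := by positivity
  have h3 := ((h2.const_add 1).inv hpos.ne')
  have h4 : (fun r => ta ν ρ r) = fun s : ℝ => (1 + (s / ρ) ^ (2 * ν))⁻¹ := by
    funext s
    unfold ta
    rw [one_div]
  rw [h4]
  refine h3.congr_deriv ?_
  show _ = -(2 * ν / r) * (1 / (1 + (r / ρ) ^ (2 * ν)) * (1 - 1 / (1 + (r / ρ) ^ (2 * ν))))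
  have h5 : (r / ρ) ^ (2 * ν - 1) = (r / ρ) ^ (2 * ν) / (r / ρ) := Real.rpow_sub_one hq.ne' _
  rw [h5]
  have := hr.ne'
  have := hρ.ne'
  field_simp
  ring

theorem fderiv_ta (ε ν ρ : ℝ) (hε : 0 < ε) (hρ : 0 < ρ) (H : ℂ → ℂ) (hH : SP H) (z v : ℂ) :
    fderiv ℝ (fun z => ta ν ρ (Rr ε H z)) z v =
      -(2 * ν / Rr ε H z) * (ta ν ρ (Rr ε H z) * (1 - ta ν ρ (Rr ε H z)))
        * fderiv ℝ (Rr ε H) z v := by
  have h1 : HasFDerivAt (Rr ε H) (fderiv ℝ (Rr ε H) z) z :=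
    ((sp_Rr ε hε H hH).smooth.differentiable (by norm_num) z).hasFDerivAt
  have h2 := (ta_deriv ν ρ (Rr ε H z) hρ (Rr_pos ε hε H z)).comp_hasFDerivAt z h1
  have h3 : fderiv ℝ (fun z => ta ν ρ (Rr ε H z)) z = _ := h2.fderiv
  rw [h3]
  simp

theorem sp_ta (ε ν ρ : ℝ) (hε : 0 < ε) (hρ : 0 < ρ) (H : ℂ → ℂ) (hH : SP H) :
    SP (fun z => ta ν ρ (Rr ε H z)) where
  smooth := by
    have h1 : ContDiff ℝ ∞ (fun z => Rr ε H z / ρ) := (sp_Rr ε hε H hH).smooth.div_const ρ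
    have h2 : ContDiff ℝ ∞ (fun z => (Rr ε H z / ρ) ^ (2 * ν)) :=
      h1.rpow_const_of_ne (fun z => (div_pos (Rr_pos ε hε H z) hρ).ne')
    have h3 : ContDiff ℝ ∞ (fun z => (1 + (Rr ε H z / ρ) ^ (2 * ν))⁻¹) := by
      apply (contDiff_const.add h2).inv
      intro z
      have : 0 < (Rr ε H z / ρ) ^ (2 * ν) := Real.rpow_pos_of_pos (div_pos (Rr_pos ε hε H z) hρ) _
      positivity
    have h4 : (fun z => ta ν ρ (Rr ε H z)) = fun z => (1 + (Rr ε H z / ρ) ^ (2 * ν))⁻¹ := by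
      funext s
      unfold ta
      rw [one_div]
    rw [h4]
    exact h3
  per := fun z => ⟨by simp only [((sp_Rr ε hε H hH).per z).1], by simp only [((sp_Rr ε hε H hH).per z).2]⟩

theorem sp_Bf (ε ν ρ : ℝ) (hε : 0 < ε) (hρ : 0 < ρ) (H : ℂ → ℂ) (c : ℂ → ℝ) (hH : SP H)
    (hc : SP c) : SP (Bf ε ν ρ c H) := by
  have hR := sp_Rr ε hε H hH
  have h1 : SP (fun z => (Rr ε H z)⁻¹) :=
    { smooth := hR.smooth.inv (fun z => (Rr_pos ε hε H z).ne')
      per := fun z => ⟨by simp only [(hR.per z).1], by simp only [(hR.per z).2]⟩ }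
  have h2 : SP (fun z => 1 - ta ν ρ (Rr ε H z) * c z) :=
    sp_sub _ _ (sp_const 1) (sp_mulR _ _ (sp_ta ε ν ρ hε hρ H hH) hc)
  have h3 := sp_mulC _ _ (sp_ofReal _ h2) (sp_mulC _ _ hH (sp_ofReal _ h1))
  have h4 : Bf ε ν ρ c H = fun z => ((1 - ta ν ρ (Rr ε H z) * c z : ℝ) : ℂ)
      * (H z * (((Rr ε H z)⁻¹ : ℝ) : ℂ)) := by
    funext z
    unfold Bf
    rw [div_eq_mul_inv, Complex.ofReal_inv]
  rw [h4]
  exact h3

theorem SPB : Pool.Agent.Helper82.IW.S_SPB := by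
  refine ⟨?_, ?_, ?_, ?_⟩
  · intro f hf
    have hxx := sp_dx _ (sp_dx f hf)
    have hyy := sp_dy _ (sp_dy f hf)
    have hxy := sp_dx _ (sp_dy f hf)
    refine ⟨sp_dx f hf, sp_dy f hf, ?_, ?_, sp_conj f hf, dxdy f hf.smooth, ?_, ?_⟩
    · exact sp_mulC _ _ (sp_const _) (sp_add _ _ hxx hyy)
    · exact sp_mulC _ _ (sp_const _) (sp_add _ _ (sp_sub _ _ hxx hyy) (sp_mulC _ _ (sp_const _) hxy))
    · exact fun z => fderiv_conj f hf.smooth z 1
    · exact fun z => fderiv_conj f hf.smooth z I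
  · intro ε H hε hH
    exact ⟨sp_Rr ε hε H hH, fun z => fderiv_Rr ε hε H hH.smooth z 1,
      fun z => fderiv_Rr ε hε H hH.smooth z I⟩
  · intro ε ν ρ H hε hρ hH
    exact ⟨sp_ta ε ν ρ hε hρ H hH, fun z => fderiv_ta ε ν ρ hε hρ H hH z 1,
      fun z => fderiv_ta ε ν ρ hε hρ H hH z I⟩
  · intro ε ν ρ H c hε hρ hH hc
    exact sp_Bf ε ν ρ hε hρ H c hH hc

end Pool.Agent.Helper49.IW
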